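import Pool.Agent.H33.HH.TC
import Pool.Agent.H3.CV.GC
import Pool.Agent.H86.CV.DV
import Pool.Agent.H96.CV.LS

/-! HAB: the sum of the absolute values of the coefficients. -/

set_option autoImplicit false

open NumberField Complex Filter Topology MeasureTheory
open scoped ContDiff nonZeroDivisors

namespace Pool.Agent.H53.HH

open Pool.Agent.H33.HH Pool.Agent.H28.RC Pool.Agent.H37.CV

section

variable {K : Type} [Field K] [NumberField K]

open scoped Classical in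
theorem hab_prod (S T : Finset (PrI K)) (n : Ideal (𝓞 K)) :
    ∑ R ∈ S.powerset, |ha R (idS T * n)| ≤ nS np (S ∩ T) * ∑ g ∈ (S \ T).powerset,
      (if idS g ∣ n then nS np g else 0) * 2 ^ ((S \ T) \ g).card := by
  have e1 : ∑ R ∈ S.powerset, |ha R (idS T * n)| =
      ∏ p ∈ S, (1 + |(if idS T * n ≤ p.1 then np p else 0) - 1|) := by
    rw [Finset.prod_one_add]
    refine Finset.sum_congr rfl fun R _ => ?_
    unfold ha
    rw [Finset.abs_prod]
  have e2 : ∏ p ∈ S, (1 + |(if idS T * n ≤ p.1 then np p else 0) - 1|) =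
      (∏ p ∈ S ∩ T, (1 + |(if idS T * n ≤ p.1 then np p else 0) - 1|)) *
      ∏ p ∈ S \ T, (1 + |(if idS T * n ≤ p.1 then np p else 0) - 1|) := by
    rw [← Finset.prod_inter_mul_prod_sdiff S T]
  have e3 : (∏ p ∈ S ∩ T, (1 + |(if idS T * n ≤ p.1 then np p else 0) - 1|)) =
      nS np (S ∩ T) := by
    unfold nS
    refine Finset.prod_congr rfl fun p hp => ?_
    have hT : p ∈ T := (Finset.mem_inter.1 hp).2
    have h1 : idS T ≤ p.1 := Ideal.dvd_iff_le.1 (Finset.dvd_prod_of_mem (fun p : PrI K => p.1) hT)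
    rw [if_pos (p.2.1.mul_le.2 (Or.inl h1))]
    have h2 := Pool.Agent.H96.CV.two_le_np p
    rw [abs_of_nonneg (by linarith)]
    ring
  have e4 : (∏ p ∈ S \ T, (1 + |(if idS T * n ≤ p.1 then np p else 0) - 1|)) ≤
      ∏ p ∈ S \ T, ((if n ≤ p.1 then np p else 0) + 2) := by
    refine Finset.prod_le_prod (fun p _ => by positivity) fun p hp => ?_
    have hT : p ∉ T := (Finset.mem_sdiff.1 hp).2
    have h2 := Pool.Agent.H96.CV.two_le_np p
    by_cases hn : n ≤ p.1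
    · rw [if_pos hn, if_pos (p.2.1.mul_le.2 (Or.inr hn)), abs_of_nonneg (by linarith)]
      linarith
    · have h3 : ¬ idS T * n ≤ p.1 := by
        intro h4
        rcases p.2.1.mul_le.1 h4 with h5 | h5
        · exact hT (Pool.Agent.H3.CV.idS_le h5)
        · exact hn h5
      rw [if_neg hn, if_neg h3]
      norm_num
  have e5 : ∏ p ∈ S \ T, ((if n ≤ p.1 then np p else 0) + 2) =
      ∑ g ∈ (S \ T).powerset, (if idS g ∣ n then nS np g else 0) * 2 ^ ((S \ T) \ g).card := by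
    rw [Finset.prod_add]
    refine Finset.sum_congr rfl fun g _ => ?_
    rw [Finset.prod_const]
    congr 1
    by_cases hg : ∀ p ∈ g, n ≤ p.1
    · rw [if_pos (Pool.Agent.H3.CV.idS_dvd hg)]
      unfold nS
      exact Finset.prod_congr rfl fun p hp => if_pos (hg p hp)
    · have h1 : ¬ idS g ∣ n := fun hd => hg fun p hp =>
        Ideal.dvd_iff_le.1 (dvd_trans (Finset.dvd_prod_of_mem (fun p : PrI K => p.1) hp) hd)
      rw [if_neg h1]
      push Not at hg
      obtain ⟨p, hp, hlp⟩ := hg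
      exact Finset.prod_eq_zero hp (if_neg hlp)
  rw [e1, e2, e3, ← e5]
  exact mul_le_mul_of_nonneg_left e4 (Pool.Agent.H96.CV.nS_pos _).le

open scoped Classical in
theorem hab_sum (g : Ideal (𝓞 K)) (hg : g ≠ ⊥) (x B : ℝ)
    (X : Finset (Ideal (𝓞 K))) (hX : ∀ n ∈ X, n ≠ ⊥ ∧ nm n ≤ x)
    (hB : ∀ Y : Finset (Ideal (𝓞 K)), (∀ n ∈ Y, n ≠ ⊥ ∧ nm n ≤ x) → ∑ n ∈ Y, (nm n)⁻¹ ≤ B) :
    ∑ n ∈ X, (nm n)⁻¹ * (if g ∣ n then nm g else 0) ≤ B := by
  have hq : ∀ n : Ideal (𝓞 K), ∃ m : Ideal (𝓞 K), g ∣ n → n = g * m := by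
    intro n
    by_cases hd : g ∣ n
    · obtain ⟨m, hm⟩ := hd
      exact ⟨m, fun _ => hm⟩
    · exact ⟨⊥, fun h => absurd h hd⟩
  choose q hq using hq
  have hgp : 0 < nm g := Pool.Agent.H96.CV.nm_pos hg
  have hg1 : 1 ≤ nm g := Pool.Agent.H96.CV.one_le_nm hg
  have e1 : ∑ n ∈ X, (nm n)⁻¹ * (if g ∣ n then nm g else 0) =
      ∑ n ∈ X.filter (fun n => g ∣ n), (nm (q n))⁻¹ := by
    rw [Finset.sum_filter]
    refine Finset.sum_congr rfl fun n hn => ?_
    by_cases hd : g ∣ n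
    · rw [if_pos hd, if_pos hd]
      have h1 := hq n hd
      have h2 : nm n = nm g * nm (q n) := by
        conv_lhs => rw [h1]
        exact Pool.Agent.H3.CV.nm_mul _ _
      rw [h2, mul_inv]
      field_simp
    · rw [if_neg hd, if_neg hd, mul_zero]
  have hinj : Set.InjOn q (X.filter (fun n => g ∣ n) : Finset (Ideal (𝓞 K))) := by
    intro a ha b hb hab
    have ha' := (Finset.mem_filter.1 (Finset.mem_coe.1 ha)).2
    have hb' := (Finset.mem_filter.1 (Finset.mem_coe.1 hb)).2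
    rw [hq a ha', hq b hb', hab]
  rw [e1, ← Finset.sum_image (f := fun n => (nm n)⁻¹) hinj]
  refine hB _ fun m hm => ?_
  obtain ⟨n, hn, rfl⟩ := Finset.mem_image.1 hm
  obtain ⟨hnX, hd⟩ := Finset.mem_filter.1 hn
  obtain ⟨h0, h1⟩ := hX n hnX
  have h2 := hq n hd
  have h3 : q n ≠ ⊥ := by
    intro h4
    rw [h4] at h2
    exact h0 (by rw [h2]; exact mul_zero _)
  refine ⟨h3, ?_⟩
  have h4 : nm n = nm g * nm (q n) := by
    conv_lhs => rw [h2]
    exact Pool.Agent.H3.CV.nm_mul _ _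
  have h5 : 0 < nm (q n) := Pool.Agent.H96.CV.nm_pos h3
  nlinarith

end

open scoped Classical in
/-- HAB -/
theorem pf_HAB (h : T_IDF) : T_HAB := by
  intro K _ _ _ P θ δ hθ hδ
  obtain ⟨hD1, C0, hC0⟩ := Pool.Agent.H86.CV.pf_DV K
  obtain ⟨C1, hC1, -, hD2⟩ := hD1 (δ / (4 * θ)) (by positivity)
  have hC0' : 0 ≤ C0 := by
    have h1 := (hC0 1 {⊤} le_rfl (by
      intro I hI
      rw [Finset.mem_singleton] at hI
      subst hI
      refine ⟨top_ne_bot, ?_⟩
      unfold nm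
      simp)).1
    simp at h1
    linarith
  refine ⟨C1 ^ 2 * (C0 * (1 + 6 / δ)), by positivity, ?_⟩
  intro Q hQ S hS T hT x hx hxQ X hX
  have hQ0 : 0 < Q := by linarith
  have hy : 1 ≤ Q ^ θ := Real.one_le_rpow hQ hθ.le
  obtain ⟨hS0, hCS, hnS, -, hSy, hpf, -, -⟩ := h K P (Q ^ θ) hy S hS
  set B : ℝ := C0 * (1 + Real.log x) with hB
  have hB0 : 0 ≤ B := mul_nonneg hC0' (by have := Real.log_nonneg hx; linarith)
  have hBY : ∀ Y : Finset (Ideal (𝓞 K)), (∀ n ∈ Y, n ≠ ⊥ ∧ nm n ≤ x) →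
      ∑ n ∈ Y, (nm n)⁻¹ ≤ B := fun Y hY => (hC0 x Y hx hY).2
  have hnST : 0 < nS np (S ∩ T) := Pool.Agent.H96.CV.nS_pos _
  -- the sum over `n`
  have s1 : ∑ n ∈ X, (nm n)⁻¹ * ∑ R ∈ S.powerset, |ha R (idS T * n)| ≤
      nS np (S ∩ T) * ∑ g ∈ (S \ T).powerset, 2 ^ ((S \ T) \ g).card * B := by
    calc ∑ n ∈ X, (nm n)⁻¹ * ∑ R ∈ S.powerset, |ha R (idS T * n)|
        ≤ ∑ n ∈ X, (nm n)⁻¹ * (nS np (S ∩ T) * ∑ g ∈ (S \ T).powerset,
          (if idS g ∣ n then nS np g else 0) * 2 ^ ((S \ T) \ g).card) := by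
          refine Finset.sum_le_sum fun n hn => ?_
          exact mul_le_mul_of_nonneg_left (hab_prod S T n)
            (inv_nonneg.2 (Pool.Agent.H96.CV.nm_pos (hX n hn).1).le)
      _ = nS np (S ∩ T) * ∑ g ∈ (S \ T).powerset, 2 ^ ((S \ T) \ g).card *
          ∑ n ∈ X, (nm n)⁻¹ * (if idS g ∣ n then nm (idS g) else 0) := by
          simp_rw [Finset.mul_sum]
          rw [Finset.sum_comm]
          refine Finset.sum_congr rfl fun g _ => Finset.sum_congr rfl fun n _ => ?_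
          rw [Pool.Agent.H3.CV.nm_idS]
          ring
      _ ≤ nS np (S ∩ T) * ∑ g ∈ (S \ T).powerset, 2 ^ ((S \ T) \ g).card * B := by
          refine mul_le_mul_of_nonneg_left (Finset.sum_le_sum fun g _ => ?_) hnST.le
          exact mul_le_mul_of_nonneg_left (hab_sum (idS g) (Pool.Agent.H3.CV.idS_ne g) x B X hX hBY)
            (by positivity)
  have s2 : ∑ g ∈ (S \ T).powerset, (2 : ℝ) ^ ((S \ T) \ g).card * B = 3 ^ (S \ T).card * B := by
    rw [← Finset.sum_mul]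
    congr 1
    have h1 := Finset.prod_add (fun _ : PrI K => (1 : ℝ)) (fun _ => (2 : ℝ)) (S \ T)
    rw [Finset.prod_const] at h1
    have h2 : (1 : ℝ) + 2 = 3 := by norm_num
    rw [h2] at h1
    rw [h1]
    refine Finset.sum_congr rfl fun g _ => ?_
    simp
  -- the number of prime factors
  have s3 : (3 : ℝ) ^ (S \ T).card ≤ C1 ^ 2 * Q ^ (δ / 2) := by
    have h1 : (2 : ℝ) ^ S.card ≤ C1 * Q ^ (δ / 4) := by
      have h2 := hD2 (idS S) hS0
      rw [hpf, hnS] at h2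
      refine h2.trans (mul_le_mul_of_nonneg_left ?_ (by linarith))
      calc nS np S ^ (δ / (4 * θ)) ≤ (Q ^ θ) ^ (δ / (4 * θ)) :=
            Real.rpow_le_rpow (Pool.Agent.H96.CV.nS_pos S).le hSy (by positivity)
        _ = Q ^ (δ / 4) := by
            rw [← Real.rpow_mul hQ0.le]
            congr 1
            field_simp
    calc (3 : ℝ) ^ (S \ T).card ≤ 4 ^ (S \ T).card := pow_le_pow_left₀ (by norm_num) (by norm_num) _
      _ ≤ 4 ^ S.card := pow_le_pow_right₀ (by norm_num)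
          (Finset.card_le_card Finset.sdiff_subset)
      _ = (2 ^ S.card) ^ 2 := by
          rw [← pow_mul, mul_comm, pow_mul]
          norm_num
      _ ≤ (C1 * Q ^ (δ / 4)) ^ 2 := pow_le_pow_left₀ (by positivity) h1 2
      _ = C1 ^ 2 * Q ^ (δ / 2) := by
          rw [mul_pow, ← Real.rpow_natCast (Q ^ (δ / 4)) 2, ← Real.rpow_mul hQ0.le]
          congr 2
          push_cast
          ring
  -- the logarithm
  have s4 : B ≤ C0 * (1 + 6 / δ) * Q ^ (δ / 2) := by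
    have h1 : Real.log x ≤ 3 * Real.log Q := by
      have h2 := Real.log_le_log (by linarith) hxQ
      rw [Real.log_pow] at h2
      exact_mod_cast h2
    have h2 : Real.log Q ≤ Q ^ (δ / 2) / (δ / 2) := Real.log_le_rpow_div hQ0.le (by positivity)
    have h3 : 1 ≤ Q ^ (δ / 2) := Real.one_le_rpow hQ (by positivity)
    have h4 : 3 * (Q ^ (δ / 2) / (δ / 2)) = 6 / δ * Q ^ (δ / 2) := by
      field_simp
      norm_num
    rw [hB, mul_assoc]
    refine mul_le_mul_of_nonneg_left ?_ hC0'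
    nlinarith
  have hQδ : Q ^ (δ / 2) * Q ^ (δ / 2) = Q ^ δ := by
    rw [← Real.rpow_add hQ0]
    congr 1
    ring
  have h5 : 0 ≤ Q ^ (δ / 2) := Real.rpow_nonneg hQ0.le _
  calc ∑ n ∈ X, (nm n)⁻¹ * ∑ R ∈ S.powerset, |ha R (idS T * n)|
      ≤ nS np (S ∩ T) * (3 ^ (S \ T).card * B) := by rw [← s2]; exact s1
    _ ≤ nS np (S ∩ T) * ((C1 ^ 2 * Q ^ (δ / 2)) * (C0 * (1 + 6 / δ) * Q ^ (δ / 2))) := by
        refine mul_le_mul_of_nonneg_left ?_ hnST.le
        exact mul_le_mul s3 s4 hB0 (by positivity)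
    _ = C1 ^ 2 * (C0 * (1 + 6 / δ)) * (Q ^ (δ / 2) * Q ^ (δ / 2)) * nS np (S ∩ T) := by ring
    _ = C1 ^ 2 * (C0 * (1 + 6 / δ)) * Q ^ δ * nS np (S ∩ T) := by rw [hQδ]

end Pool.Agent.H53.HH
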