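import Pool.Agent.H33.HH.TC
import Pool.Agent.H3.CV.GC
import Pool.Agent.H96.CV.LS

/-! LSM: the sum over the complementary divisors. -/

set_option autoImplicit false

open NumberField Complex Filter Topology MeasureTheory
open scoped ContDiff nonZeroDivisors

namespace Pool.Agent.H53.HH

open Pool.Agent.H33.HH Pool.Agent.H28.RC Pool.Agent.H37.CV

section

variable {K : Type} [Field K] [NumberField K]

theorem lsm_prime (p : PrI K) : Prime p.1 := (Ideal.prime_iff_isPrime p.2.2).2 p.2.1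

theorem lsm_mul_le (p : PrI K) (I J : Ideal (𝓞 K)) : I * J ≤ p.1 ↔ I ≤ p.1 ∨ J ≤ p.1 :=
  p.2.1.mul_le

open scoped Classical in
theorem lsm_gs (P : ℝ) (S : Finset (PrI K)) (b k l : Ideal (𝓞 K)) :
    gs P S b k l = ∑ R₁ ∈ S.powerset, ∑ R₀ ∈ (SP K P).powerset,
      (if ∀ p ∈ R₁, l ≤ p.1 then ha R₁ b else 0) * (if ∀ p ∈ R₀, l ≤ p.1 then hk P k R₀ else 0) := by
  have h1 : (∏ p ∈ S, if l ≤ p.1 then (if b ≤ p.1 then np p else 0) else 1) =
      ∑ R₁ ∈ S.powerset, if ∀ p ∈ R₁, l ≤ p.1 then ha R₁ b else 0 := by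
    have e1 : (∏ p ∈ S, if l ≤ p.1 then (if b ≤ p.1 then np p else 0) else 1) =
        ∏ p ∈ S, (1 + if l ≤ p.1 then ((if b ≤ p.1 then np p else 0) - 1) else 0) := by
      refine Finset.prod_congr rfl fun p _ => ?_
      by_cases hl : l ≤ p.1 <;> simp [hl]
    rw [e1, Finset.prod_one_add]
    refine Finset.sum_congr rfl fun R _ => ?_
    by_cases hR : ∀ p ∈ R, l ≤ p.1
    · rw [if_pos hR]
      unfold ha
      refine Finset.prod_congr rfl fun p hp => ?_
      rw [if_pos (hR p hp)]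
    · rw [if_neg hR]
      push Not at hR
      obtain ⟨p, hp, hlp⟩ := hR
      exact Finset.prod_eq_zero hp (if_neg hlp)
  have h2 : om P (k * l) = ∑ R₀ ∈ (SP K P).powerset, if ∀ p ∈ R₀, l ≤ p.1 then hk P k R₀ else 0 := by
    unfold om
    have e1 : (∏ p ∈ SP K P, if k * l ≤ p.1 then 1 - 1 / np p else 1 - 2 / np p) =
        ∏ p ∈ SP K P, ((if l ≤ p.1 then (if k ≤ p.1 then 0 else 1 / np p) else 0) +
          (if k ≤ p.1 then 1 - 1 / np p else 1 - 2 / np p)) := by
      refine Finset.prod_congr rfl fun p _ => ?_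
      rw [lsm_mul_le]
      by_cases hk' : k ≤ p.1
      · by_cases hl : l ≤ p.1 <;> simp [hk', hl]
      · by_cases hl : l ≤ p.1
        · simp only [hk', hl, false_or, if_true, if_false]
          ring
        · simp [hk', hl]
    rw [e1, Finset.prod_add]
    refine Finset.sum_congr rfl fun R _ => ?_
    by_cases hR : ∀ p ∈ R, l ≤ p.1
    · rw [if_pos hR]
      unfold hk
      congr 1
      refine Finset.prod_congr rfl fun p hp => ?_
      rw [if_pos (hR p hp)]
    · rw [if_neg hR]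
      push Not at hR
      obtain ⟨p, hp, hlp⟩ := hR
      rw [Finset.prod_eq_zero hp (if_neg hlp), zero_mul]
  have h3 : gs P S b k l = (∏ p ∈ S, if l ≤ p.1 then (if b ≤ p.1 then np p else 0) else 1) *
      om P (k * l) := rfl
  rw [h3, h1, h2, Finset.sum_mul_sum]

end

open scoped Classical in
/-- LSM -/
theorem pf_LSM (h : T_IDF) : T_LSM := by
  intro K _ _ _ P y W hy hW S hS b k hb hCb hSk Q x hQ hx
  obtain ⟨hS0, hCS, hnS, -, -, -, hSP, -⟩ := h K P y hy S hS
  obtain ⟨δ, hδ, hlow⟩ := hW.low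
  -- finite support
  have hfin : ∀ c : NI K → ℝ, (Function.support fun l : NI K =>
      c l * w1 W (x / (nm l.1 * Q))).Finite := by
    intro c
    have h1 := Ideal.finite_setOfPred_absNorm_le (S := 𝓞 K) ⌊x / (δ * Q)⌋₊
    refine Set.Finite.of_finite_image (f := fun l : NI K => l.1) (h1.subset ?_)
      Subtype.val_injective.injOn
    rintro I ⟨l, hl, rfl⟩
    refine Nat.le_floor ?_
    have hl1 : w1 W (x / (nm l.1 * Q)) ≠ 0 := fun h0 => hl (by simp only [h0, mul_zero])
    have hl2 : δ < x / (nm l.1 * Q) := by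
      by_contra h0
      exact hl1 (by unfold w1; rw [hlow _ (not_lt.1 h0), mul_zero])
    have hn : 0 < nm l.1 := Pool.Agent.H96.CV.nm_pos l.2
    have h3 : nm l.1 ≤ x / (δ * Q) := by
      rw [lt_div_iff₀ (by positivity)] at hl2
      rw [le_div_iff₀ (by positivity)]
      nlinarith
    exact h3
  have hsum : ∀ c : NI K → ℝ, Summable fun l : NI K => c l * w1 W (x / (nm l.1 * Q)) :=
    fun c => summable_of_hasFiniteSupport (hfin c)
  have e0 : ∀ l : NI K, gs P S b k l.1 * (Q / nm l.1) * w1 W (x / (nm l.1 * Q)) =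
      ∑ R₁ ∈ S.powerset, ∑ R₀ ∈ (SP K P).powerset,
        (ha R₁ b * hk P k R₀) * ((if idS R₁ * idS R₀ ∣ l.1 then Q / nm l.1 else 0) *
          w1 W (x / (nm l.1 * Q))) := by
    intro l
    rw [lsm_gs, Finset.sum_mul, Finset.sum_mul]
    refine Finset.sum_congr rfl fun R₁ hR₁ => ?_
    rw [Finset.sum_mul, Finset.sum_mul]
    refine Finset.sum_congr rfl fun R₀ hR₀ => ?_
    have hdisj : Disjoint R₁ R₀ := by
      rw [Finset.disjoint_left]
      intro p hp1 hp0
      have h1 := (hSP p (Finset.mem_powerset.1 hR₁ hp1)).1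
      have h2 := Pool.Agent.H96.CV.mem_PM.1 (Finset.mem_powerset.1 hR₀ hp0)
      linarith
    have hiff : idS R₁ * idS R₀ ∣ l.1 ↔ (∀ p ∈ R₁, l.1 ≤ p.1) ∧ ∀ p ∈ R₀, l.1 ≤ p.1 := by
      rw [← Pool.Agent.H3.CV.idS_union hdisj]
      constructor
      · intro hd
        have hd' : ∀ p ∈ R₁ ∪ R₀, l.1 ≤ p.1 := by
          intro p hp
          refine Ideal.dvd_iff_le.1 (dvd_trans ?_ hd)
          exact Finset.dvd_prod_of_mem (fun p : PrI K => p.1) hp
        exact ⟨fun p hp => hd' p (Finset.mem_union_left _ hp),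
          fun p hp => hd' p (Finset.mem_union_right _ hp)⟩
      · rintro ⟨h1, h2⟩
        refine Pool.Agent.H3.CV.idS_dvd fun p hp => ?_
        rcases Finset.mem_union.1 hp with hp | hp
        · exact h1 p hp
        · exact h2 p hp
    by_cases h1 : ∀ p ∈ R₁, l.1 ≤ p.1
    · by_cases h2 : ∀ p ∈ R₀, l.1 ≤ p.1
      · rw [if_pos h1, if_pos h2, if_pos (hiff.2 ⟨h1, h2⟩)]
        ring
      · rw [if_neg h2, if_neg fun hd => h2 (hiff.1 hd).2]
        ring
    · rw [if_neg h1, if_neg fun hd => h1 (hiff.1 hd).1]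
      ring
  simp_rw [e0]
  rw [Summable.tsum_finsetSum fun R₁ _ => summable_sum fun R₀ _ => (hsum _).mul_left _]
  refine Finset.sum_congr rfl fun R₁ hR₁ => ?_
  rw [Summable.tsum_finsetSum fun R₀ _ => (hsum _).mul_left _]
  refine Finset.sum_congr rfl fun R₀ hR₀ => ?_
  rw [tsum_mul_left, mul_assoc (ha R₁ b * hk P k R₀)]
  congr 1
  -- the substitution
  set g : Ideal (𝓞 K) := idS R₁ * idS R₀ with hg
  have hg0 : g ≠ ⊥ := mul_ne_zero (Pool.Agent.H3.CV.idS_ne R₁) (Pool.Agent.H3.CV.idS_ne R₀)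
  have hng : nm g = nS np R₁ * nS np R₀ := by
    rw [hg, Pool.Agent.H3.CV.nm_mul, Pool.Agent.H3.CV.nm_idS, Pool.Agent.H3.CV.nm_idS]
  have hgp : 0 < nm g := Pool.Agent.H96.CV.nm_pos hg0
  let φ : NI K → NI K := fun l => ⟨g * l.1, mul_ne_zero hg0 l.2⟩
  have hφ : Function.Injective φ := by
    intro a b hab
    have h1 : g * a.1 = g * b.1 := congrArg Subtype.val hab
    exact Subtype.ext (mul_left_cancel₀ hg0 h1)
  rw [← hφ.tsum_eq (f := fun l : NI K => (if g ∣ l.1 then Q / nm l.1 else 0) *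
    w1 W (x / (nm l.1 * Q)))]
  · unfold Th
    rw [← hng, ← tsum_mul_left]
    refine tsum_congr fun l => ?_
    have hd : g ∣ (φ l).1 := Dvd.intro _ rfl
    have hl : 0 < nm l.1 := Pool.Agent.H96.CV.nm_pos l.2
    have hn : nm (φ l).1 = nm g * nm l.1 := Pool.Agent.H3.CV.nm_mul _ _
    simp only [if_pos hd, hn]
    have e1 : x / (nm g * nm l.1 * Q) = x / (nm g * Q) / nm l.1 := by
      field_simp
    rw [e1]
    field_simp
  · intro l hl
    by_cases hd : g ∣ l.1
    · obtain ⟨m, hm⟩ := hd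
      refine ⟨⟨m, ?_⟩, Subtype.ext hm.symm⟩
      rintro rfl
      exact l.2 (by rw [hm]; exact mul_zero _)
    · exact absurd (by simp only [if_neg hd, zero_mul]) hl

end Pool.Agent.H53.HH
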